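import Pool.Agent.N909.CL.Def

set_option autoImplicit false

/-! # Random Collatz maps: parameters for the largest values (helper744) -/

open MeasureTheory Filter Set
open scoped ENNReal Topology

namespace Pool.Agent.N744.CL.J

open Pool.Agent.N909.CL

theorem kappa_pos : 0 < 3 / 4 * Real.log 3 - Real.log 2 := by
  have h1 : Real.log ((2 : ℝ) ^ 4) < Real.log ((3 : ℝ) ^ 3) :=
    Real.log_lt_log (by norm_num) (by norm_num)
  rw [Real.log_pow, Real.log_pow] at h1
  push_cast at h1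
  linarith

theorem entropy : Real.binEntropy (3 / 4) = 2 * Real.log 2 - 3 / 4 * Real.log 3 := by
  unfold Real.binEntropy
  have h1 : Real.log ((3 : ℝ) / 4)⁻¹ = 2 * Real.log 2 - Real.log 3 := by
    rw [inv_div, Real.log_div (by norm_num) (by norm_num), show (4 : ℝ) = 2 ^ 2 by norm_num,
      Real.log_pow]
    push_cast
    ring
  have h2 : Real.log ((1 : ℝ) - 3 / 4)⁻¹ = 2 * Real.log 2 := by
    rw [show ((1 : ℝ) - 3 / 4)⁻¹ = 2 ^ 2 by norm_num, Real.log_pow]
    push_cast
    ring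
  rw [h1, h2]
  ring

theorem choose_lt (b u : ℕ) (h0 : 0 < u) (h1 : u ≤ b) : b.choose u < 2 ^ b := by
  rw [← Nat.sum_range_choose]
  have h2 : b.choose u + b.choose 0 ≤ ∑ m ∈ Finset.range (b + 1), b.choose m := by
    have h3 : ∑ m ∈ ({u, 0} : Finset ℕ), b.choose m ≤ ∑ m ∈ Finset.range (b + 1), b.choose m := by
      refine Finset.sum_le_sum_of_subset ?_
      intro m hm
      rw [Finset.mem_insert, Finset.mem_singleton] at hm
      rw [Finset.mem_range]
      omega
    rwa [Finset.sum_pair (by omega)] at h3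
  rw [Nat.choose_zero_right] at h2
  omega

theorem t (hH : StmH) : StmJ := by
  intro ε hε
  obtain ⟨κ, hκ⟩ : ∃ κ : ℝ, κ = 3 / 4 * Real.log 3 - Real.log 2 := ⟨_, rfl⟩
  have hκ0 : 0 < κ := hκ ▸ kappa_pos
  have hlim : Tendsto (fun x : ℝ => Real.log x ^ 1 / (1 * x + (-1))) atTop (𝓝 0) :=
    Real.tendsto_pow_log_div_mul_add_atTop 1 (-1) 1 one_ne_zero
  have hm : Tendsto (fun m : ℕ => 4 * (m : ℝ) + 1) atTop atTop :=
    tendsto_atTop_add_const_right _ _ (tendsto_natCast_atTop_atTop.const_mul_atTop (by norm_num))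
  have h1 : ∀ᶠ m : ℕ in atTop,
      Real.log (4 * (m : ℝ) + 1) ^ 1 / (1 * (4 * (m : ℝ) + 1) + (-1)) < ε * κ :=
    (hlim.comp hm).eventually (gt_mem_nhds (mul_pos hε hκ0))
  obtain ⟨m, hm1, hm2⟩ := (h1.and (eventually_ge_atTop 1)).exists
  have hm0 : (0 : ℝ) < m := by exact_mod_cast hm2
  rw [pow_one, show 1 * (4 * (m : ℝ) + 1) + (-1) = 4 * m by ring,
    div_lt_iff₀ (by positivity)] at hm1
  refine ⟨4 * m, 3 * m, by omega, by omega, ?_, ?_⟩
  · rw [pow_mul, pow_mul]
    exact Nat.pow_lt_pow_left (by norm_num) (by omega)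
  · have hnum : Real.log ((3 : ℝ) ^ (3 * m) / 2 ^ (4 * m)) = 4 * m * κ := by
      rw [Real.log_div (by positivity) (by positivity), Real.log_pow, Real.log_pow, hκ]
      push_cast
      ring
    have hC0 : 0 < (4 * m).choose (3 * m) := Nat.choose_pos (by omega)
    have hC0' : (0 : ℝ) < ((4 * m).choose (3 * m) : ℕ) := by exact_mod_cast hC0
    have hden0 : 0 < Real.log ((2 : ℝ) ^ (4 * m) / ((4 * m).choose (3 * m) : ℕ)) := by
      refine Real.log_pos ?_
      rw [one_lt_div hC0']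
      exact_mod_cast choose_lt (4 * m) (3 * m) (by omega) (by omega)
    have hden : Real.log ((2 : ℝ) ^ (4 * m) / ((4 * m).choose (3 * m) : ℕ)) ≤
        4 * m * κ + Real.log (4 * m + 1) := by
      have h2 := hH (4 * m) (3 * m) (by omega) (by omega)
      have h3 : (((3 * m : ℕ) : ℝ) / ((4 * m : ℕ) : ℝ)) = 3 / 4 := by
        push_cast
        rw [mul_div_mul_right _ _ hm0.ne']
      rw [h3, entropy] at h2
      have h4 := Real.log_le_log (Real.exp_pos _) h2
      rw [Real.log_exp, Real.log_mul (by positivity) hC0'.ne'] at h4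
      rw [Real.log_div (by positivity) hC0'.ne', Real.log_pow]
      push_cast at h4 ⊢
      rw [hκ]
      nlinarith
    rw [hnum, lt_div_iff₀ hden0]
    rcases le_or_gt (1 - ε) 0 with h5 | h5
    · have h6 : (1 - ε) * Real.log ((2 : ℝ) ^ (4 * m) / ((4 * m).choose (3 * m) : ℕ)) ≤ 0 :=
        mul_nonpos_of_nonpos_of_nonneg h5 hden0.le
      have h7 : 0 < 4 * m * κ := by positivity
      linarith
    · have h6 := mul_le_mul_of_nonneg_left hden h5.le
      have h7 : 0 ≤ Real.log (4 * (m : ℝ) + 1) := Real.log_nonneg (by linarith)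
      nlinarith

end Pool.Agent.N744.CL.J
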